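import Pool.Agent.Y290.PL.Stm

/-!
# Inverse diffeomorphisms and uniform equidistribution
-/

set_option autoImplicit false

namespace Pool.Agent.Y309.PL

open MeasureTheory Set Filter Topology
open scoped ContDiff
open Pool.Agent.Y290.PL

theorem Dif.hasDerivAt {h : ℝ → ℝ} (hh : Dif h) (x : ℝ) : HasDerivAt h (deriv h x) x :=
  ((hh.s.differentiable (by simp)) x).hasDerivAt

theorem Dif.surj {h : ℝ → ℝ} (hh : Dif h) : Function.Surjective h := by
  refine hh.s.continuous.surjective ?_ ?_
  · refine tendsto_id.congr' ?_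
    filter_upwards [eventually_gt_atTop 1] with x hx
    exact (hh.o x fun hx' => absurd hx'.2 (not_le.2 hx)).symm
  · refine tendsto_id.congr' ?_
    filter_upwards [eventually_lt_atBot 0] with x hx
    exact (hh.o x fun hx' => absurd hx'.1 (not_le.2 hx)).symm

theorem t_INV : S_INV := by
  intro h hh
  have hmono : StrictMono h := strictMono_of_deriv_pos hh.d
  set e : ℝ ≃o ℝ := StrictMono.orderIsoOfSurjective h hmono (Dif.surj hh) with he
  have hek : ∀ x, e.symm (h x) = x := fun x => e.symm_apply_apply x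
  have hke : ∀ x, h (e.symm x) = x := fun x => e.apply_symm_apply x
  have hs : ContDiff ℝ ∞ e.symm :=
    e.toHomeomorph.contDiff_symm_deriv (f' := deriv h) (fun x => (hh.d x).ne')
      (fun x => Dif.hasDerivAt hh x) hh.s
  refine ⟨e.symm, ⟨hs, fun x => ?_, fun x hx => ?_⟩, hek, hke⟩
  · have h1 : HasDerivAt e.symm (deriv h (e.symm x))⁻¹ x :=
      HasDerivAt.of_local_left_inverse e.symm.continuous.continuousAt
        (Dif.hasDerivAt hh (e.symm x)) (hh.d _).ne' (Eventually.of_forall hke)
    rw [h1.deriv]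
    exact inv_pos.2 (hh.d _)
  · have h1 := hek x
    rwa [hh.o x hx] at h1

theorem t_EQ : S_EQ := by
  intro h g Θ hh hg hg0 hΘ hper
  have hpi : (0 : ℝ) < 2 * Real.pi := by positivity
  set mu : ℝ := 1 / (2 * Real.pi) * ∫ t in (0 : ℝ)..2 * Real.pi, Θ t with hmu
  set Θ0 : ℝ → ℝ := fun t => Θ t - mu with hΘ0
  have hΘ0c : Continuous Θ0 := hΘ.sub continuous_const
  have hΘ0p : Function.Periodic Θ0 (2 * Real.pi) := fun t => by simp only [hΘ0, hper]
  have hΘ0i : ∫ t in (0 : ℝ)..2 * Real.pi, Θ0 t = 0 := by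
    simp only [hΘ0]
    rw [intervalIntegral.integral_sub (hΘ.intervalIntegrable _ _)
      (continuous_const.intervalIntegrable _ _), intervalIntegral.integral_const, hmu,
      smul_eq_mul]
    field_simp
    ring
  set Ξ : ℝ → ℝ := fun s => ∫ t in (0 : ℝ)..s, Θ0 t with hΞ
  have hΞd : ∀ s, HasDerivAt Ξ (Θ0 s) s := fun s =>
    intervalIntegral.integral_hasDerivAt_right (hΘ0c.intervalIntegrable _ _)
      (hΘ0c.stronglyMeasurableAtFilter _ _) hΘ0c.continuousAt
  have hΞc : Continuous Ξ := continuous_iff_continuousAt.2 fun s => (hΞd s).continuousAt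
  have hΞp : Function.Periodic Ξ (2 * Real.pi) := by
    intro s
    have h1 : ∫ t in (0 : ℝ)..(s + 2 * Real.pi), Θ0 t =
        (∫ t in (0 : ℝ)..s, Θ0 t) + ∫ t in s..(s + 2 * Real.pi), Θ0 t :=
      (intervalIntegral.integral_add_adjacent_intervals (hΘ0c.intervalIntegrable _ _)
        (hΘ0c.intervalIntegrable _ _)).symm
    have h2 : ∫ t in s..(s + 2 * Real.pi), Θ0 t = 0 := by
      rw [hΘ0p.intervalIntegral_add_eq s 0, zero_add, hΘ0i]
    simp only [hΞ]
    rw [h1, h2, add_zero]
  obtain ⟨C1, hC1⟩ : ∃ C1, ∀ s, ‖Ξ s‖ ≤ C1 := by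
    obtain ⟨C, hC⟩ := (hΞp.isBounded_of_continuous hpi.ne' hΞc).exists_norm_le
    exact ⟨C, fun s => hC _ (mem_range_self s)⟩
  have hC1' : 0 ≤ C1 := (norm_nonneg _).trans (hC1 0)
  set G : ℝ → ℝ := fun t => g t / deriv h t with hG
  have hdh : ContDiff ℝ ∞ (deriv h) := (contDiff_infty_iff_deriv.1 hh.s).2
  have hGs : ContDiff ℝ ∞ G := hg.div hdh fun x => (hh.d x).ne'
  have hG0 : ∀ x, x ∉ Icc (0 : ℝ) 1 → G x = 0 := fun x hx => by
    simp only [hG, hg0 x hx, zero_div]
  have hGcs : HasCompactSupport G := HasCompactSupport.intro isCompact_Icc hG0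
  have hGd : ∀ x, HasDerivAt G (deriv G x) x := fun x =>
    ((hGs.differentiable (by simp)) x).hasDerivAt
  have hGdc : Continuous (deriv G) := (contDiff_infty_iff_deriv.1 hGs).2.continuous
  have hGdcs : HasCompactSupport (deriv G) := hGcs.deriv
  obtain ⟨C2, hC2⟩ := hGs.continuous.bounded_above_of_compact_support hGcs
  have hC2' : 0 ≤ C2 := (norm_nonneg _).trans (hC2 0)
  have hGi : Integrable (deriv G) := hGdc.integrable_of_hasCompactSupport hGdcs
  refine ⟨2 * (C2 * C1) + C1 * ∫ t, ‖deriv G t‖, fun lam hlam x y => ?_⟩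
  set v : ℝ → ℝ := fun t => Ξ (lam * h t) with hv
  set v' : ℝ → ℝ := fun t => Θ0 (lam * h t) * (lam * deriv h t) with hv'
  have hvd : ∀ t, HasDerivAt v (v' t) t := fun t =>
    HasDerivAt.comp (h₂ := Ξ) (h := fun t => lam * h t) t (hΞd (lam * h t))
      ((Dif.hasDerivAt hh t).const_mul lam)
  have hvc : Continuous v := hΞc.comp (continuous_const.mul hh.s.continuous)
  have hv'c : Continuous v' := (hΘ0c.comp (continuous_const.mul hh.s.continuous)).mul
    (continuous_const.mul hdh.continuous)
  have hparts := intervalIntegral.integral_mul_deriv_eq_deriv_mul (a := x) (b := y)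
    (u := G) (v := v) (u' := deriv G) (v' := v') (fun t _ => hGd t) (fun t _ => hvd t)
    (hGdc.intervalIntegrable _ _) (hv'c.intervalIntegrable _ _)
  have hleft : ∫ t in x..y, G t * v' t = lam * ∫ t in x..y, g t * Θ0 (lam * h t) := by
    rw [← intervalIntegral.integral_const_mul]
    refine intervalIntegral.integral_congr fun t _ => ?_
    simp only [hG, hv']
    have := (hh.d t).ne'
    field_simp
  have hrem : ‖∫ t in x..y, deriv G t * v t‖ ≤ C1 * ∫ t, ‖deriv G t‖ := by
    calc ‖∫ t in x..y, deriv G t * v t‖ ≤ ∫ t in uIoc x y, ‖deriv G t * v t‖ :=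
          intervalIntegral.norm_integral_le_integral_norm_uIoc
      _ ≤ ∫ t in uIoc x y, C1 * ‖deriv G t‖ := by
          refine integral_mono_of_nonneg (Eventually.of_forall fun t => norm_nonneg _)
            (hGi.norm.const_mul C1).integrableOn (Eventually.of_forall fun t => ?_)
          simp only [norm_mul]
          rw [mul_comm]
          exact mul_le_mul_of_nonneg_right (hC1 _) (norm_nonneg _)
      _ ≤ ∫ t, C1 * ‖deriv G t‖ := by
          refine setIntegral_le_integral (hGi.norm.const_mul C1)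
            (Eventually.of_forall fun t => ?_)
          exact mul_nonneg hC1' (norm_nonneg _)
      _ = C1 * ∫ t, ‖deriv G t‖ := integral_const_mul _ _
  have hbd : ∀ t, |G t * v t| ≤ C2 * C1 := fun t => by
    rw [abs_mul]
    exact mul_le_mul (hC2 t) (hC1 _) (abs_nonneg _) hC2'
  have hmain : |lam * ∫ t in x..y, g t * Θ0 (lam * h t)| ≤
      2 * (C2 * C1) + C1 * ∫ t, ‖deriv G t‖ := by
    rw [← hleft, hparts]
    have h1 := hbd x
    have h2 := hbd y
    rw [Real.norm_eq_abs] at hrem
    rw [abs_le] at h1 h2 hrem ⊢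
    constructor <;> linarith [h1.1, h1.2, h2.1, h2.2, hrem.1, hrem.2]
  have hcomp : (∫ t in x..y, g t * Θ (lam * h t)) - mu * ∫ t in x..y, g t =
      ∫ t in x..y, g t * Θ0 (lam * h t) := by
    rw [← intervalIntegral.integral_const_mul, ← intervalIntegral.integral_sub]
    · refine intervalIntegral.integral_congr fun t _ => ?_
      simp only [hΘ0]
      ring
    · exact (hg.continuous.mul
        (hΘ.comp (continuous_const.mul hh.s.continuous))).intervalIntegrable _ _
    · exact (continuous_const.mul hg.continuous).intervalIntegrable _ _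
  rw [hcomp, le_div_iff₀ hlam]
  rw [abs_mul, abs_of_pos hlam] at hmain
  linarith

end Pool.Agent.Y309.PL
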